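import Pool.Agent.R684.PN.Stm

set_option autoImplicit false

/-!
# PN-CYC: parafree groups of rank at most one
-/

namespace Pool.Agent.R906.PN

open Pool.Agent.R684.PN

lemma cyc_free (X : Type) (hX : Subsingleton X) : IsCyclic (FreeGroup X) := by
  rcases isEmpty_or_nonempty X with hE | ⟨⟨x⟩⟩
  · exact isCyclic_of_subsingleton
  · refine ⟨⟨FreeGroup.of x, fun g => ?_⟩⟩
    have h1 : Subgroup.closure (Set.range (FreeGroup.of : X → FreeGroup X)) ≤
        Subgroup.zpowers (FreeGroup.of x) := by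
      rw [Subgroup.closure_le]
      rintro _ ⟨y, rfl⟩
      rw [Subsingleton.elim y x]
      exact Subgroup.mem_zpowers _
    rw [FreeGroup.closure_range_of] at h1
    exact h1 (Subgroup.mem_top g)

theorem t_CYC : S_CYC := by
  intro P X _ h hr hX N hN
  have hF : IsCyclic (FreeGroup X) := cyc_free X hX
  have hq : ∀ n, IsCyclic (FreeGroup X ⧸ lc (FreeGroup X) n) := fun n =>
    isCyclic_of_surjective (QuotientGroup.mk' (lc (FreeGroup X) n))
      (QuotientGroup.mk'_surjective _)
  have hP : ∀ n, IsCyclic (P ⧸ lc P n) := fun n => by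
    have := hq n
    obtain ⟨e⟩ := h n
    exact isCyclic_of_surjective e.symm e.symm.surjective
  have hle : ∀ n, lc P 1 ≤ lc P n := by
    intro n
    have := hP n
    have hc : IsMulCommutative (P ⧸ lc P n) := IsCyclic.isMulCommutative
    unfold lc
    rw [Subgroup.top_lowerCentralSeries_one]
    refine (Subgroup.Normal.quotient_commutative_iff_commutator_le).1 ?_
    exact hc
  have hbot : lc P 1 = ⊥ := by
    rw [eq_bot_iff]
    intro x hx
    exact hr x fun n => hle n hx
  have hcyc : IsCyclic P := by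
    have := hP 1
    refine isCyclic_of_injective (QuotientGroup.mk' (lc P 1)) ?_
    rw [← MonoidHom.ker_eq_bot_iff, QuotientGroup.ker_mk', hbot]
  have hcomm : ∀ a b : P, a * b = b * a := fun a b =>
    (IsCyclic.isMulCommutative (α := P)).is_comm.comm a b
  have hnorm : N.Normal := ⟨fun n hn g => by
    rw [hcomm g n, mul_assoc, mul_inv_cancel, mul_one]; exact hn⟩
  obtain ⟨g, hg⟩ := hcyc.exists_generator
  have hgen : ∀ y : P ⧸ N, y ∈ Subgroup.zpowers (QuotientGroup.mk' N g) := by
    intro y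
    obtain ⟨z, rfl⟩ := QuotientGroup.mk'_surjective N y
    obtain ⟨k, rfl⟩ := Subgroup.mem_zpowers_iff.1 (hg z)
    exact ⟨k, by simp⟩
  have h1 : orderOf (QuotientGroup.mk' N g) = Nat.card (P ⧸ N) :=
    orderOf_eq_card_of_forall_mem_zpowers hgen
  have h2 : N.index = Nat.card (P ⧸ N) := Subgroup.index_eq_card N
  rw [h2, ← h1]
  obtain ⟨⟨x, hx⟩, hx1⟩ := (Subgroup.ne_bot_iff_exists_ne_one).1 hN
  obtain ⟨k, hk⟩ := Subgroup.mem_zpowers_iff.1 (hg x)
  have hk0 : k ≠ 0 := by
    rintro rfl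
    apply hx1
    rw [zpow_zero] at hk
    exact Subtype.ext hk.symm
  rw [Ne, orderOf_eq_zero_iff, not_not, isOfFinOrder_iff_zpow_eq_one]
  refine ⟨k, hk0, ?_⟩
  rw [← map_zpow, hk]
  exact (QuotientGroup.eq_one_iff _).2 hx

end Pool.Agent.R906.PN
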